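import Mathlib
import Pool.Agent.V11296.LegDet

/-!
# Primes dividing the Legendre symbol determinants with power weights: the cases 5, 7, 9, 11

The exact values are `E(5) = {29}`, `E(7) = {13, 53, 2477}`, `E(9) = {13, 17, 29, 1201}` and
`E(11) = {17, 29, 1597}`; thus three of the four proposed values are not correct.
-/

set_option autoImplicit false

namespace Pool.Agent.Results.MP_63ede0_nt.ExactValues

open Pool.Agent.V11296.LegDet Matrix

lemma small {p m : ℕ} (hp : p.Prime) (h4 : p % 4 = 1)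
    (h : (Mat p ((p - 1) / 2) m).det ≠ 0) : ¬ (p : ℤ) ∣ D p m := by
  intro hd
  rw [← ZMod.intCast_zmod_eq_zero_iff_dvd, cast_D hp h4] at hd
  exact h hd

lemma small_dvd {p m : ℕ} (hp : p.Prime) (h4 : p % 4 = 1)
    (v : Fin ((p - 1) / 2) → ZMod p) (hv : v ≠ 0) (h : Mat p ((p - 1) / 2) m *ᵥ v = 0) :
    (p : ℤ) ∣ D p m := by
  have : Fact p.Prime := ⟨hp⟩
  rw [← ZMod.intCast_zmod_eq_zero_iff_dvd, cast_D hp h4]
  exact Matrix.exists_mulVec_eq_zero_iff.mp ⟨v, hv, h⟩

lemma small_not {p m : ℕ} (hp : p.Prime) (h4 : p % 4 = 1)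
    (N : Matrix (Fin ((p - 1) / 2)) (Fin ((p - 1) / 2)) (ZMod p))
    (h : Mat p ((p - 1) / 2) m * N = 1) : ¬ (p : ℤ) ∣ D p m := by
  have : Fact p.Prime := ⟨hp⟩
  apply small hp h4
  intro h0
  have h1 := congrArg Matrix.det h
  rw [Matrix.det_mul, h0, zero_mul, Matrix.det_one] at h1
  exact zero_ne_one h1

lemma not5 (m : ℕ) (h : m = 5 ∨ m = 7 ∨ m = 9 ∨ m = 11) : ¬ ((5 : ℕ) : ℤ) ∣ D 5 m := by
  rcases h with rfl | rfl | rfl | rfl
  · exact small_not (by norm_num) (by norm_num) !![0, 3; 2, 0] (by decide)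
  · exact small_not (by norm_num) (by norm_num) !![0, 2; 3, 0] (by decide)
  · exact small_not (by norm_num) (by norm_num) !![0, 3; 2, 0] (by decide)
  · exact small_not (by norm_num) (by norm_num) !![0, 2; 3, 0] (by decide)

lemma dvd13_7 : ((13 : ℕ) : ℤ) ∣ D 13 7 :=
  small_dvd (by norm_num) (by norm_num) ![6, 6, 1, 0, 0, 0] (by decide) (by decide)

lemma dvd13_9 : ((13 : ℕ) : ℤ) ∣ D 13 9 :=
  small_dvd (by norm_num) (by norm_num) ![11, 12, 11, 4, 1, 0] (by decide) (by decide)

lemma dvd17_9 : ((17 : ℕ) : ℤ) ∣ D 17 9 :=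
  small_dvd (by norm_num) (by norm_num) ![13, 3, 1, 0, 0, 0, 0, 0] (by decide) (by decide)

lemma dvd17_11 : ((17 : ℕ) : ℤ) ∣ D 17 11 :=
  small_dvd (by norm_num) (by norm_num) ![5, 8, 6, 14, 1, 0, 0, 0] (by decide) (by decide)

lemma not13_11 : ¬ ((13 : ℕ) : ℤ) ∣ D 13 11 :=
  small_not (by norm_num) (by norm_num) !![0, 11, 8, 2, 0, 7; 2, 0, 0, 5, 8, 6; 5, 0, 0, 7, 11, 8;
    11, 8, 6, 0, 7, 0; 0, 5, 2, 6, 0, 11; 6, 7, 5, 0, 2, 0] (by decide)

/-- small primes congruent to 1 modulo 4 -/
lemma small_cases {p : ℕ} (hp : p.Prime) (h4 : p % 4 = 1) (h : p ≤ 23) :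
    p = 5 ∨ p = 13 ∨ p = 17 := by
  interval_cases p <;> first | omega | (exfalso; revert hp; norm_num)

lemma R5 : ∀ a ≤ 5, R 5 a ∣ (2 * 3 * 5 * 7 * 11 * 29) ^ 5 := by decide +kernel

lemma R7 : ∀ a ≤ 7, R 7 a ∣ (2 * 3 * 5 * 7 * 11 * 13 * 53 * 743 * 2477) ^ 8 := by decide +kernel

lemma R9 : ∀ a ≤ 9, R 9 a ∣ (2 * 3 * 5 * 7 * 11 * 13 * 17 * 19 * 29 * 47 * 1201) ^ 8 := by
  decide +kernel

lemma R11 : ∀ a ≤ 11, R 11 a ∣
    (2 * 3 * 5 * 7 * 11 * 13 * 17 * 19 * 23 * 29 * 31 * 43 * 367 * 859 * 1597) ^ 12 := by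
  decide +kernel

/-- The exact values of `E(5)`, `E(7)`, `E(9)`, `E(11)`. -/
theorem result : E 5 = {29} ∧ E 7 = {13, 53, 2477} ∧ E 9 = {13, 17, 29, 1201} ∧
    E 11 = {17, 29, 1597} := by
  refine ⟨?_, ?_, ?_, ?_⟩
  · ext p
    simp only [Set.mem_singleton_iff]
    constructor
    · rintro ⟨hp, h4, hd⟩
      rcases Nat.lt_or_ge (2 * 5 + 1) p with h | h
      · obtain ⟨a, ha, h1⟩ := (criterion hp h4 h).mp hd
        have h2 := hp.dvd_of_dvd_pow (h1.trans (R5 a ha))
        simp only [hp.dvd_mul] at h2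
        rcases h2 with ((((h2 | h2) | h2) | h2) | h2) | h2 <;>
          have h3 := (Nat.prime_dvd_prime_iff_eq hp (by norm_num)).mp h2 <;> omega
      · exfalso
        rcases small_cases hp h4 (by omega) with rfl | rfl | rfl
        · exact not5 5 (by simp) hd
        · omega
        · omega
    · rintro rfl
      exact ⟨by norm_num, by norm_num,
        (criterion (by norm_num) (by norm_num) (by norm_num)).mpr ⟨0, by norm_num, by decide +kernel⟩⟩
  · ext p
    simp only [Set.mem_insert_iff, Set.mem_singleton_iff]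
    constructor
    · rintro ⟨hp, h4, hd⟩
      rcases Nat.lt_or_ge (2 * 7 + 1) p with h | h
      · obtain ⟨a, ha, h1⟩ := (criterion hp h4 h).mp hd
        have h2 := hp.dvd_of_dvd_pow (h1.trans (R7 a ha))
        simp only [hp.dvd_mul] at h2
        rcases h2 with (((((((h2 | h2) | h2) | h2) | h2) | h2) | h2) | h2) | h2 <;>
          have h3 := (Nat.prime_dvd_prime_iff_eq hp (by norm_num)).mp h2 <;> omega
      · rcases small_cases hp h4 (by omega) with rfl | rfl | rfl
        · exact absurd hd (not5 7 (by simp))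
        · omega
        · omega
    · rintro (rfl | rfl | rfl)
      · exact ⟨by norm_num, by norm_num, dvd13_7⟩
      · exact ⟨by norm_num, by norm_num,
          (criterion (by norm_num) (by norm_num) (by norm_num)).mpr
            ⟨2, by norm_num, by decide +kernel⟩⟩
      · exact ⟨by norm_num, by norm_num,
          (criterion (by norm_num) (by norm_num) (by norm_num)).mpr
            ⟨0, by norm_num, by decide +kernel⟩⟩
  · ext p
    simp only [Set.mem_insert_iff, Set.mem_singleton_iff]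
    constructor
    · rintro ⟨hp, h4, hd⟩
      rcases Nat.lt_or_ge (2 * 9 + 1) p with h | h
      · obtain ⟨a, ha, h1⟩ := (criterion hp h4 h).mp hd
        have h2 := hp.dvd_of_dvd_pow (h1.trans (R9 a ha))
        simp only [hp.dvd_mul] at h2
        rcases h2 with (((((((((h2 | h2) | h2) | h2) | h2) | h2) | h2) | h2) | h2) | h2) | h2 <;>
          have h3 := (Nat.prime_dvd_prime_iff_eq hp (by norm_num)).mp h2 <;> omega
      · rcases small_cases hp h4 (by omega) with rfl | rfl | rfl
        · exact absurd hd (not5 9 (by simp))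
        · omega
        · omega
    · rintro (rfl | rfl | rfl | rfl)
      · exact ⟨by norm_num, by norm_num, dvd13_9⟩
      · exact ⟨by norm_num, by norm_num, dvd17_9⟩
      · exact ⟨by norm_num, by norm_num,
          (criterion (by norm_num) (by norm_num) (by norm_num)).mpr
            ⟨0, by norm_num, by decide +kernel⟩⟩
      · exact ⟨by norm_num, by norm_num,
          (criterion (by norm_num) (by norm_num) (by norm_num)).mpr
            ⟨1, by norm_num, by decide +kernel⟩⟩
  · ext p
    simp only [Set.mem_insert_iff, Set.mem_singleton_iff]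
    constructor
    · rintro ⟨hp, h4, hd⟩
      rcases Nat.lt_or_ge (2 * 11 + 1) p with h | h
      · obtain ⟨a, ha, h1⟩ := (criterion hp h4 h).mp hd
        have h2 := hp.dvd_of_dvd_pow (h1.trans (R11 a ha))
        simp only [hp.dvd_mul] at h2
        rcases h2 with (((((((((((((h2 | h2) | h2) | h2) | h2) | h2) | h2) | h2) | h2) | h2) | h2) |
            h2) | h2) | h2) | h2 <;>
          have h3 := (Nat.prime_dvd_prime_iff_eq hp (by norm_num)).mp h2 <;> omega
      · rcases small_cases hp h4 (by omega) with rfl | rfl | rfl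
        · exact absurd hd (not5 11 (by simp))
        · exact absurd hd not13_11
        · omega
    · rintro (rfl | rfl | rfl)
      · exact ⟨by norm_num, by norm_num, dvd17_11⟩
      · exact ⟨by norm_num, by norm_num,
          (criterion (by norm_num) (by norm_num) (by norm_num)).mpr
            ⟨3, by norm_num, by decide +kernel⟩⟩
      · exact ⟨by norm_num, by norm_num,
          (criterion (by norm_num) (by norm_num) (by norm_num)).mpr
            ⟨2, by norm_num, by decide +kernel⟩⟩

end Pool.Agent.Results.MP_63ede0_nt.ExactValues
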