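import Mathlib
import Pool.Agent.V11296.LegDet

/-!
# Primes dividing the Legendre symbol determinants with power weights: finiteness

For every `m` only finitely many primes `p ≡ 1 (mod 4)` divide the determinant of the matrix
`(j² - k²)^m ((j² - k²)/p)`, `1 ≤ j, k ≤ (p-1)/2`.

Modulo `p` the entries are `(x_j - x_k)^(n+m)`, where `n = (p-1)/2` and the `x_j = j²` are the
`n`-th roots of unity. If `m < n` the binomial theorem factors the matrix as a product of a
Vandermonde matrix, a diagonal matrix and a row-permuted transposed Vandermonde matrix, and the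
diagonal entries are `± (C(n+m, a) + C(n+m, m-a))` for `a ≤ m` and `± C(n+m, a)` for `m < a < n`.
As `n ≡ -1/2 (mod p)`, `2^m m! (C(n+m, a) + C(n+m, m-a))` is congruent modulo `p` to a positive
integer which depends only on `m` and `a`.
-/

set_option autoImplicit false

namespace Pool.Agent.Results.MP_63ede0_nt.Finiteness

open Pool.Agent.V11296.LegDet

/-- For every `m` the set `E(m)` is finite. -/
theorem result : ∀ m : ℕ, (E m).Finite := by
  intro m
  have hR : ∏ a ∈ Finset.range (m + 1), R m a ≠ 0 := by
    rw [Finset.prod_ne_zero_iff]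
    intro a ha
    rw [Finset.mem_range] at ha
    exact (R_pos (by omega)).ne'
  refine Set.Finite.subset (Set.finite_Iic (2 * m + 1 + ∏ a ∈ Finset.range (m + 1), R m a)) ?_
  rintro p ⟨hp, h4, hdvd⟩
  rw [Set.mem_Iic]
  rcases Nat.lt_or_ge (2 * m + 1) p with h | h
  · obtain ⟨a, ha, h1⟩ := (criterion hp h4 h).mp hdvd
    have h2 : p ∣ ∏ a ∈ Finset.range (m + 1), R m a :=
      h1.trans (Finset.dvd_prod_of_mem _ (Finset.mem_range.mpr (by omega)))
    have := Nat.le_of_dvd (Nat.pos_of_ne_zero hR) h2
    omega
  · omega

end Pool.Agent.Results.MP_63ede0_nt.Finiteness
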